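import Mathlib

set_option autoImplicit false

namespace Pool.Agent.H.MP_e3c312_co

abbrev E := EuclideanSpace ℝ (Fin 2)

lemma dsq (x y : E) : dist x y ^ 2 = (x 0 - y 0) ^ 2 + (x 1 - y 1) ^ 2 := by
  rw [EuclideanSpace.dist_eq, Real.sq_sqrt (by positivity)]
  simp [Fin.sum_univ_two, Real.dist_eq, sq_abs]

lemma dist_of_sq {x y x' y' : E} (h : dist x y ^ 2 = dist x' y' ^ 2) : dist x y = dist x' y' :=
  (pow_left_inj₀ dist_nonneg dist_nonneg two_ne_zero).1 h

noncomputable def iso (u v e a b : ℝ) (h : u ^ 2 + v ^ 2 = 1) (he : e ^ 2 = 1) : E ≃ᵢ E where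
  toFun z := !₂[(z 0 - a) * u + (z 1 - b) * v, e * (-(z 0 - a) * v + (z 1 - b) * u)]
  invFun w := !₂[a + w 0 * u - e * w 1 * v, b + w 0 * v + e * w 1 * u]
  left_inv z := by
    ext i
    fin_cases i
    · simp
      linear_combination (z 0 - a) * h + ((z 0 - a) * v ^ 2 - (z 1 - b) * u * v) * he
    · simp
      linear_combination (z 1 - b) * h + (-(z 0 - a) * u * v + (z 1 - b) * u ^ 2) * he
  right_inv w := by
    ext i
    fin_cases i
    · simp
      linear_combination (w 0) * h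
    · simp
      linear_combination (e ^ 2 * w 1) * h + (w 1) * he
  isometry_toFun := by
    refine Isometry.of_dist_eq fun x y => dist_of_sq ?_
    rw [dsq, dsq]
    simp
    linear_combination ((x 0 - y 0) ^ 2 + (x 1 - y 1) ^ 2) * h +
      (-(x 0 - y 0) * v + (x 1 - y 1) * u) ^ 2 * he

lemma iso0 (u v e a b : ℝ) (h : u ^ 2 + v ^ 2 = 1) (he : e ^ 2 = 1) (z : E) :
    iso u v e a b h he z 0 = (z 0 - a) * u + (z 1 - b) * v := rfl

lemma iso1 (u v e a b : ℝ) (h : u ^ 2 + v ^ 2 = 1) (he : e ^ 2 = 1) (z : E) :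
    iso u v e a b h he z 1 = e * (-(z 0 - a) * v + (z 1 - b) * u) := rfl

noncomputable def cfg (X Y : ℝ) : Fin 4 → E :=
  ![!₂[0, 0], !₂[9, 0], !₂[4 + X / 18, √(X * (180 - X)) / 18],
    !₂[5 - Y / 18, √(Y * (180 - Y)) / 18]]

def Ok (X Y : ℝ) : Prop :=
  0 ≤ X ∧ 0 ≤ Y ∧ X + Y < 1 ∧ X * Y * (100 - (X + Y)) = 16 * (X + Y) ^ 2

def tab (X Y : ℝ) : Fin 4 → Fin 4 → ℝ :=
  ![![0, 81, 16 + X, 25], ![81, 0, 25, 16 + Y], ![16 + X, 25, 0, 1], ![25, 16 + Y, 1, 0]]

lemma cfg_d {X Y : ℝ} (h : Ok X Y) (i j : Fin 4) :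
    dist (cfg X Y i) (cfg X Y j) ^ 2 = tab X Y i j := by
  obtain ⟨hX, hY, hS, hP⟩ := h
  have h1 : √(X * (180 - X)) ^ 2 = X * (180 - X) := Real.sq_sqrt (by nlinarith)
  have h2 : √(Y * (180 - Y)) ^ 2 = Y * (180 - Y) := Real.sq_sqrt (by nlinarith)
  have h3 : √(X * (180 - X)) * √(Y * (180 - Y)) = 72 * (X + Y) + X * Y := by
    rw [← Real.sqrt_mul (by nlinarith)]
    rw [Real.sqrt_eq_iff_mul_self_eq (by
      have : 0 ≤ X * (180 - X) := by nlinarith
      have : 0 ≤ Y * (180 - Y) := by nlinarith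
      positivity) (by positivity)]
    linear_combination 324 * hP
  generalize hc : √(X * (180 - X)) = c at h1 h3
  generalize hd : √(Y * (180 - Y)) = d at h2 h3
  rw [dsq]
  fin_cases i <;> fin_cases j <;> simp [cfg, tab, hc, hd] <;>
    first
    | done
    | linear_combination (1 / 324) * h1
    | linear_combination (1 / 324) * h2
    | linear_combination (1 / 324) * h1 + (1 / 324) * h2 - (2 / 324) * h3
    | norm_num

lemma real_core (X Y c d : ℝ) (hS : X + Y < 1) (c1 : 0 ≤ c)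
    (e1 : (18 * c) ^ 2 = X * (180 - X)) (e2 : (18 * d) ^ 2 = Y * (180 - Y))
    (e3 : (18 * c) * (18 * d) = 72 * (X + Y) + X * Y) :
    0 ≤ X ∧ 0 ≤ Y ∧ X * Y * (100 - (X + Y)) = 16 * (X + Y) ^ 2 ∧ 0 ≤ d := by
  have k1 : 0 ≤ X * (180 - X) := e1 ▸ sq_nonneg _
  have k2 : 0 ≤ Y * (180 - Y) := e2 ▸ sq_nonneg _
  have hX0 : 0 ≤ X := by
    by_contra hn
    have hn : X < 0 := not_le.1 hn
    have := mul_neg_of_neg_of_pos hn (by linarith : 0 < 180 - X)
    linarith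
  have hY0 : 0 ≤ Y := by
    by_contra hn
    have hn : Y < 0 := not_le.1 hn
    have := mul_neg_of_neg_of_pos hn (by linarith : 0 < 180 - Y)
    linarith
  have hP : X * Y * (100 - (X + Y)) = 16 * (X + Y) ^ 2 := by
    have : ((18 * c) * (18 * d)) ^ 2 = X * (180 - X) * (Y * (180 - Y)) := by
      rw [← e1, ← e2]; ring
    rw [e3] at this
    linear_combination (-1 / 324) * this
  refine ⟨hX0, hY0, hP, ?_⟩
  by_contra hn
  have hn : d < 0 := not_le.1 hn
  have hXY : 0 ≤ X * Y := mul_nonneg hX0 hY0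
  have h1 : c * d ≤ 0 := mul_nonpos_of_nonneg_of_nonpos c1 hn.le
  have hY' : Y = 0 := by linarith
  rw [hY'] at e2
  have h2 : 0 < d * d := mul_pos_of_neg_of_neg hn hn
  linarith

lemma classify (q : Fin 4 → E) (h01 : dist (q 0) (q 1) ^ 2 = 81) (h12 : dist (q 1) (q 2) ^ 2 = 25)
    (h23 : dist (q 2) (q 3) ^ 2 = 1) (h03 : dist (q 0) (q 3) ^ 2 = 25) (X Y : ℝ)
    (hX : dist (q 0) (q 2) ^ 2 = 16 + X) (hY : dist (q 1) (q 3) ^ 2 = 16 + Y) (hS : X + Y < 1) :
    Ok X Y ∧ ∃ T : E ≃ᵢ E, ∀ i, T (q i) = cfg X Y i := by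
  have hu : ((q 1 0 - q 0 0) / 9) ^ 2 + ((q 1 1 - q 0 1) / 9) ^ 2 = 1 := by
    rw [dsq] at h01; linear_combination (1 / 81) * h01
  obtain ⟨e, he, hc⟩ : ∃ e : ℝ, e ^ 2 = 1 ∧
      0 ≤ e * (-(q 2 0 - q 0 0) * ((q 1 1 - q 0 1) / 9) + (q 2 1 - q 0 1) * ((q 1 0 - q 0 0) / 9)) := by
    rcases le_total 0 (-(q 2 0 - q 0 0) * ((q 1 1 - q 0 1) / 9) +
      (q 2 1 - q 0 1) * ((q 1 0 - q 0 0) / 9)) with h | h
    · exact ⟨1, by norm_num, by linarith⟩
    · exact ⟨-1, by norm_num, by linarith⟩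
  set T := iso _ _ e (q 0 0) (q 0 1) hu he with hT
  have a0 : T (q 0) 0 = 0 := by rw [hT, iso0]; ring
  have a1 : T (q 0) 1 = 0 := by rw [hT, iso1]; ring
  have b0 : T (q 1) 0 = 9 := by rw [hT, iso0]; linear_combination 9 * hu
  have b1 : T (q 1) 1 = 0 := by rw [hT, iso1]; ring
  have c1 : 0 ≤ T (q 2) 1 := by rw [hT, iso1]; exact hc
  rw [← T.dist_eq, dsq] at h12 h23 h03 hX hY
  rw [a0, a1] at h03 hX
  rw [b0, b1] at h12 hY
  have ec0 : T (q 2) 0 = 4 + X / 18 := by linear_combination (1 / 18) * hX - (1 / 18) * h12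
  have ed0 : T (q 3) 0 = 5 - Y / 18 := by linear_combination (1 / 18) * h03 - (1 / 18) * hY
  rw [ec0] at h12 h23 hX
  rw [ed0] at h03 h23 hY
  generalize hc' : T (q 2) 1 = c at *
  generalize hd' : T (q 3) 1 = d at *
  have e1 : (18 * c) ^ 2 = X * (180 - X) := by linear_combination 324 * hX
  have e2 : (18 * d) ^ 2 = Y * (180 - Y) := by linear_combination 324 * h03
  have e3 : (18 * c) * (18 * d) = 72 * (X + Y) + X * Y := by
    linear_combination (1 / 2) * e1 + (1 / 2) * e2 - 162 * h23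
  obtain ⟨hX0, hY0, hP, d1⟩ := real_core X Y c d hS c1 e1 e2 e3
  refine ⟨⟨hX0, hY0, hS, hP⟩, T, fun i => ?_⟩
  have s1 : √(X * (180 - X)) = 18 * c := by rw [← e1, Real.sqrt_sq (by linarith)]
  have s2 : √(Y * (180 - Y)) = 18 * d := by rw [← e2, Real.sqrt_sq (by linarith)]
  ext k
  fin_cases i <;> fin_cases k <;> simp [cfg, s1, s2, a0, a1, b0, b1, ec0, ed0, hc', hd']

noncomputable def w (S : ℝ) : ℝ := √((36 - S) / (100 - S))

lemma w_sq {S : ℝ} (h : S < 1) : w S ^ 2 * (100 - S) = 36 - S := by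
  unfold w
  rw [Real.sq_sqrt (div_nonneg (by linarith) (by linarith))]
  field_simp [show (100 - S) ≠ 0 by linarith]

lemma w_pos {S : ℝ} (h : S < 1) : 1 / 2 ≤ w S := by
  unfold w
  apply Real.le_sqrt_of_sq_le
  rw [le_div_iff₀ (by linarith)]
  linarith

lemma w_le {S : ℝ} (h : S < 1) : w S ≤ 1 := by
  unfold w
  rw [Real.sqrt_le_one, div_le_one (by linarith)]
  linarith

lemma w_anti {S S' : ℝ} (h : S ≤ S') (h' : S' < 1) : w S' ≤ w S := by
  unfold w
  apply Real.sqrt_le_sqrt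
  rw [div_le_div_iff₀ (by linarith) (by linarith)]
  nlinarith

lemma w_lip {S S' : ℝ} (h : S ≤ S') (h' : S' < 1) : w S - w S' ≤ S' - S := by
  have h1 := w_sq h'
  have h2 := w_sq (lt_of_le_of_lt h h')
  have h3 := w_pos h'
  have h4 := w_pos (lt_of_le_of_lt h h')
  have h5 := w_anti h h'
  have h6 := w_le h'
  have h7 : (w S ^ 2 - w S' ^ 2) * (100 - S) = (S' - S) * (1 - w S' ^ 2) := by
    linear_combination h2 - h1
  have h8 : 0 ≤ w S ^ 2 - w S' ^ 2 := by nlinarith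
  have h9 : w S ^ 2 - w S' ^ 2 ≤ S' - S := by nlinarith [sq_nonneg (w S')]
  nlinarith

noncomputable def XX (s : ℝ) : ℝ := (|s| + s * w |s|) / 2
noncomputable def YY (s : ℝ) : ℝ := (|s| - s * w |s|) / 2

lemma ok_s {s : ℝ} (h : |s| < 1) : Ok (XX s) (YY s) := by
  have h1 := w_sq h
  have h3 := w_pos h
  have h6 := w_le h
  have h7 : |s * w (|s|)| ≤ |s| := by
    rw [abs_mul, abs_of_nonneg (by linarith : 0 ≤ w |s|)]
    nlinarith [abs_nonneg s]
  have h8 := abs_le.1 h7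
  have h9 : |s| ^ 2 = s ^ 2 := sq_abs s
  refine ⟨by unfold XX; linarith [h8.1], by unfold YY; linarith [h8.2], by unfold XX YY; linarith, ?_⟩
  unfold XX YY
  linear_combination (-(s ^ 2) / 4) * h1 + ((36 - |s|) / 4) * h9

lemma chart_abs {X Y : ℝ} (h : Ok X Y) : |(X - Y) / w (X + Y)| = X + Y := by
  obtain ⟨hX, hY, hS, hP⟩ := h
  have h1 := w_sq hS
  have h3 := w_pos hS
  rw [← pow_left_inj₀ (abs_nonneg _) (by linarith) two_ne_zero, sq_abs, div_pow,
    div_eq_iff (by positivity)]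
  have h4 : (100 - (X + Y)) ≠ 0 := by linarith
  apply mul_right_cancel₀ h4
  linear_combination (-4) * hP - (X + Y) ^ 2 * h1

lemma chart_X {X Y : ℝ} (h : Ok X Y) : XX ((X - Y) / w (X + Y)) = X := by
  have h3 := w_pos h.2.2.1
  unfold XX
  rw [chart_abs h]
  field_simp
  ring

lemma chart_Y {X Y : ℝ} (h : Ok X Y) : YY ((X - Y) / w (X + Y)) = Y := by
  have h3 := w_pos h.2.2.1
  unfold YY
  rw [chart_abs h]
  field_simp
  ring

lemma chart_s {s : ℝ} (h : |s| < 1) : (XX s - YY s) / w (XX s + YY s) = s := by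
  have h3 := w_pos h
  have h1 : XX s + YY s = |s| := by unfold XX YY; ring
  have h2 : XX s - YY s = s * w |s| := by unfold XX YY; ring
  rw [h1, h2]
  field_simp

lemma w_cont : ContinuousOn w (Set.Iio 1) := by
  unfold w
  refine ContinuousOn.sqrt (ContinuousOn.div (by fun_prop) (by fun_prop) fun x hx => ?_)
  have : x < 1 := hx
  linarith

lemma cfg_cont : Continuous fun z : ℝ × ℝ => cfg z.1 z.2 := by
  refine continuous_pi fun i => ?_
  fin_cases i <;> simp [cfg] <;> fun_prop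

noncomputable def path (s : ℝ) : Fin 4 → E := cfg (XX s) (YY s)

lemma path_cont : ContinuousOn path (Set.Ioo (-1) 1) := by
  have h1 : ContinuousOn (fun s : ℝ => w |s|) (Set.Ioo (-1) 1) :=
    w_cont.comp continuous_abs.continuousOn fun s hs => abs_lt.2 hs
  have h2 : ContinuousOn (fun s : ℝ => (XX s, YY s)) (Set.Ioo (-1) 1) := by
    unfold XX YY
    refine ContinuousOn.prodMk ?_ ?_
    · exact (continuous_abs.continuousOn.add (continuousOn_id.mul h1)).div_const _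
    · exact (continuous_abs.continuousOn.sub (continuousOn_id.mul h1)).div_const _
  exact (cfg_cont.comp_continuousOn h2).congr fun s _ => by simp only [path, Function.comp]

lemma XX_mono {s s' : ℝ} (h0 : 0 ≤ s) (h : s ≤ s') (h' : s' < 1) : XX s ≤ XX s' := by
  unfold XX
  rw [abs_of_nonneg h0, abs_of_nonneg (h0.trans h)]
  have h1 := w_lip h h'
  have h2 := w_pos h'
  have h3 := w_anti h h'
  nlinarith

lemma YY_mono {s s' : ℝ} (h0 : 0 ≤ s) (h : s ≤ s') (h' : s' < 1) : YY s ≤ YY s' := by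
  unfold YY
  rw [abs_of_nonneg h0, abs_of_nonneg (h0.trans h)]
  have h2 := w_le h'
  have h3 := w_anti h h'
  nlinarith

end Pool.Agent.H.MP_e3c312_co
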