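import Pool.Agent.H.MP_e3c312_co.A

set_option autoImplicit false

namespace Pool.Agent.H.MP_e3c312_co

abbrev R : (Fin 4 → E) → (Fin 4 → E) → Prop := fun q q' => ∃ T : E ≃ᵢ E, ∀ i, T (q i) = q' i

abbrev G : SimpleGraph (Fin 4) := SimpleGraph.cycleGraph 4

noncomputable def fd (i j : Fin 4) : Quot R → ℝ :=
  Quot.lift (fun q => dist (q i) (q j) ^ 2 - 16) (by
    rintro q q' ⟨T, hT⟩
    simp only [← hT, T.dist_eq])

lemma fd_mk (i j : Fin 4) (q : Fin 4 → E) :
    fd i j (Quot.mk R q) = dist (q i) (q j) ^ 2 - 16 := rfl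

lemma fd_cont (i j : Fin 4) : Continuous (fd i j) := by
  unfold fd
  apply continuous_quot_lift
  fun_prop

lemma fd_X {X Y : ℝ} (h : Ok X Y) : fd 0 2 (Quot.mk R (cfg X Y)) = X := by
  rw [fd_mk, cfg_d h]; simp [tab]

lemma fd_Y {X Y : ℝ} (h : Ok X Y) : fd 1 3 (Quot.mk R (cfg X Y)) = Y := by
  rw [fd_mk, cfg_d h]; simp [tab]

lemma ok0 : Ok (XX 0) (YY 0) := ok_s (by simp)

lemma tab_adj (X Y X' Y' : ℝ) (i j : Fin 4) (h : G.Adj i j) : tab X Y i j = tab X' Y' i j := by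
  fin_cases i <;> fin_cases j <;> first | exact absurd h (by decide) | simp [tab]

lemma edge {X Y : ℝ} (h : Ok X Y) (i j : Fin 4) (hij : G.Adj i j) :
    dist (cfg X Y i) (cfg X Y j) = dist (path 0 i) (path 0 j) := by
  apply dist_of_sq
  unfold path
  rw [cfg_d h, cfg_d ok0]
  exact tab_adj _ _ _ _ i j hij

def O : Set (Quot R) := {x | fd 0 2 x + fd 1 3 x < 1}

lemma O_open : IsOpen O := isOpen_lt ((fd_cont 0 2).add (fd_cont 1 3)) continuous_const

abbrev C : Set (Quot R) :=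
  {x | ∃ q : Fin 4 → E, Quot.mk R q = x ∧
    ∀ i j, G.Adj i j → dist (q i) (q j) = dist (path 0 i) (path 0 j)}

lemma mem_OC {x : Quot R} (hx : x ∈ O ∩ C) :
    Ok (fd 0 2 x) (fd 1 3 x) ∧ Quot.mk R (cfg (fd 0 2 x) (fd 1 3 x)) = x := by
  obtain ⟨hO, q, rfl, hq⟩ := hx
  have key : ∀ i j, G.Adj i j → dist (q i) (q j) ^ 2 = tab 0 0 i j := fun i j h => by
    rw [hq i j h]
    unfold path
    rw [cfg_d ok0]
    exact tab_adj _ _ _ _ i j h
  obtain ⟨h1, T, hT⟩ := classify q (by rw [key 0 1 (by decide)]; simp [tab])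
    (by rw [key 1 2 (by decide)]; simp [tab]) (by rw [key 2 3 (by decide)]; simp [tab])
    (by rw [key 0 3 (by decide)]; simp [tab]) (fd 0 2 (Quot.mk R q)) (fd 1 3 (Quot.mk R q))
    (by rw [fd_mk]; ring)
    (by rw [fd_mk]; ring) hO
  exact ⟨h1, (Quot.sound ⟨T, hT⟩).symm⟩

noncomputable def phi (x : Quot R) : ℝ := (fd 0 2 x - fd 1 3 x) / w (fd 0 2 x + fd 1 3 x)

lemma phi_path {s : ℝ} (h : |s| < 1) : phi (Quot.mk R (path s)) = s := by
  unfold phi path
  rw [fd_X (ok_s h), fd_Y (ok_s h), chart_s h]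

lemma path_mem {s : ℝ} (h : |s| < 1) : Quot.mk R (path s) ∈ O ∩ C := by
  refine ⟨?_, path s, rfl, edge (ok_s h)⟩
  show fd 0 2 (Quot.mk R (cfg _ _)) + fd 1 3 (Quot.mk R (cfg _ _)) < 1
  rw [fd_X (ok_s h), fd_Y (ok_s h)]
  exact (ok_s h).2.2.1

lemma phi_abs {x : Quot R} (hx : x ∈ O ∩ C) : |phi x| < 1 := by
  unfold phi
  rw [chart_abs (mem_OC hx).1]
  exact hx.1

lemma abs_b (b : Set.Ioo (0:ℝ) 1) : |2 * b.1 - 1| < 1 :=
  abs_lt.2 ⟨by linarith [b.2.1], by linarith [b.2.2]⟩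

noncomputable def hom : ↥(O ∩ C) ≃ₜ ↥(Set.Ioo (0:ℝ) 1) where
  toFun x := ⟨(phi x.1 + 1) / 2, by
    have := abs_lt.1 (phi_abs x.2)
    constructor <;> linarith [this.1, this.2]⟩
  invFun b := ⟨Quot.mk R (path (2 * b.1 - 1)), path_mem (abs_b b)⟩
  left_inv x := by
    apply Subtype.ext
    show Quot.mk R (path (2 * ((phi x.1 + 1) / 2) - 1)) = x.1
    have h1 : 2 * ((phi x.1 + 1) / 2) - 1 = phi x.1 := by ring
    rw [h1]
    unfold path phi
    rw [chart_X (mem_OC x.2).1, chart_Y (mem_OC x.2).1]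
    exact (mem_OC x.2).2
  right_inv b := by
    apply Subtype.ext
    show (phi (Quot.mk R (path (2 * b.1 - 1))) + 1) / 2 = b.1
    rw [phi_path (abs_b b)]
    ring
  continuous_toFun := by
    refine Continuous.subtype_mk (Continuous.div_const (Continuous.add ?_ continuous_const) _) _
    have hS : Continuous fun x : ↥(O ∩ C) => fd 0 2 x.1 + fd 1 3 x.1 :=
      ((fd_cont 0 2).add (fd_cont 1 3)).comp continuous_subtype_val
    have hD : Continuous fun x : ↥(O ∩ C) => fd 0 2 x.1 - fd 1 3 x.1 :=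
      ((fd_cont 0 2).sub (fd_cont 1 3)).comp continuous_subtype_val
    have hw : Continuous fun x : ↥(O ∩ C) => w (fd 0 2 x.1 + fd 1 3 x.1) :=
      w_cont.comp_continuous hS fun x => x.2.1
    refine hD.div hw fun x => ?_
    have := w_pos (S := fd 0 2 x.1 + fd 1 3 x.1) x.2.1
    linarith
  continuous_invFun := by
    refine Continuous.subtype_mk (continuous_quot_mk.comp ?_) _
    exact path_cont.comp_continuous (by fun_prop) fun b => abs_lt.1 (abs_b b)

lemma hom_symm (b : Set.Ioo (0:ℝ) 1) : (hom.symm b).1 = Quot.mk R (path (2 * b.1 - 1)) := rfl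

noncomputable def gam : E ≃ᵢ E := iso (-1) 0 (-1) 9 0 (by norm_num) (by norm_num)

lemma gam0 (z : E) : gam z 0 = 9 - z 0 := by unfold gam; rw [iso0]; ring
lemma gam1 (z : E) : gam z 1 = z 1 := by unfold gam; rw [iso1]; ring

lemma gam_sq : gam * gam = 1 := by
  ext z i
  fin_cases i <;> simp [gam0, gam1]

lemma gam_ne : gam ≠ 1 := by
  intro h
  have := gam0 0
  rw [h] at this
  simp at this

def Gam : Subgroup (E ≃ᵢ E) where
  carrier := {1, gam}
  one_mem' := Or.inl rfl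
  mul_mem' := by
    rintro a b (rfl | rfl) (rfl | rfl)
    · exact Or.inl (one_mul _)
    · exact Or.inr (one_mul _)
    · exact Or.inr (mul_one _)
    · exact Or.inl gam_sq
  inv_mem' := by
    rintro a (rfl | rfl)
    · exact Or.inl inv_one
    · exact Or.inr (inv_eq_of_mul_eq_one_right gam_sq)

instance : Finite Gam := (Set.toFinite ({1, gam} : Set (E ≃ᵢ E))).to_subtype

def tau : Equiv.Perm (Fin 4) := Equiv.swap 0 1 * Equiv.swap 2 3

open Classical in
noncomputable def theta : Gam →* Equiv.Perm (Fin 4) where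
  toFun g := if g.1 = 1 then 1 else tau
  map_one' := by simp
  map_mul' := by
    rintro ⟨a, (rfl | rfl)⟩ ⟨b, (rfl | rfl)⟩
    · simp
    · simp
    · simp
    · simp only [Subgroup.coe_mul, gam_sq, gam_ne, if_true, if_false]
      decide

lemma theta_cases (g : Gam) : (g.1 = 1 ∧ theta g = 1) ∨ (g.1 = gam ∧ theta g = tau) := by
  obtain ⟨a, (rfl | rfl)⟩ := g
  · exact Or.inl ⟨rfl, by simp [theta]⟩
  · exact Or.inr ⟨rfl, by simp [theta, gam_ne]⟩

lemma path0 : path 0 = ![!₂[0, 0], !₂[9, 0], !₂[4, 0], !₂[5, 0]] := by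
  simp [path, cfg, XX, YY]

lemma sym0 (i : Fin 4) : gam (path 0 i) = path 0 (tau i) := by
  have h0 : tau 0 = 1 := by decide
  have h1 : tau 1 = 0 := by decide
  have h2 : tau 2 = 3 := by decide
  have h3 : tau 3 = 2 := by decide
  rw [path0]
  ext k
  fin_cases i <;> fin_cases k <;> simp [gam0, gam1, h0, h1, h2, h3] <;> norm_num

lemma tab_mono {X Y X' Y' : ℝ} (h : X ≤ X') (h' : Y ≤ Y') (i j : Fin 4) :
    tab X Y i j ≤ tab X' Y' i j := by
  fin_cases i <;> fin_cases j <;> simp [tab, h, h']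

lemma half {t : ℝ} (h : t ∈ Set.Icc (0:ℝ) 1) : |t / 2| < 1 :=
  abs_lt.2 ⟨by linarith [h.1], by linarith [h.2]⟩

lemma mono (i j : Fin 4) :
    MonotoneOn (fun t => dist (path (t / 2) i) (path (t / 2) j)) (Set.Icc (0:ℝ) 1) := by
  intro t ht t' ht' h
  refine (pow_le_pow_iff_left₀ dist_nonneg dist_nonneg two_ne_zero).1 ?_
  unfold path
  rw [cfg_d (ok_s (half ht)), cfg_d (ok_s (half ht'))]
  exact tab_mono (XX_mono (by linarith [ht.1]) (by linarith) (by linarith [ht'.2]))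
    (YY_mono (by linarith [ht.1]) (by linarith) (by linarith [ht'.2])) i j

lemma diag_ne : dist (path (1 / 2) 0) (path (1 / 2) 2) ≠ dist (path (1 / 2) 1) (path (1 / 2) 3) := by
  intro h
  have h1 : |(1 / 2 : ℝ)| < 1 := by rw [abs_of_pos] <;> norm_num
  have h2 := phi_path h1
  have h3 : fd 0 2 (Quot.mk R (path (1 / 2))) = fd 1 3 (Quot.mk R (path (1 / 2))) := by
    rw [fd_mk, fd_mk, h]
  unfold phi at h2
  rw [h3] at h2
  norm_num at h2

lemma moved : dist (path (1 / 2) 0) (path (1 / 2) 2) ≠ dist (path 0 0) (path 0 2) := by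
  intro h
  have h1 : |(1 / 2 : ℝ)| < 1 := by rw [abs_of_pos] <;> norm_num
  have h3 : fd 0 2 (Quot.mk R (path (1 / 2))) = fd 0 2 (Quot.mk R (path 0)) := by
    rw [fd_mk, fd_mk, h]
  unfold path at h3
  rw [fd_X (ok_s h1), fd_X ok0] at h3
  have h4 := w_pos h1
  have h5 : |(1 / 2 : ℝ)| = 1 / 2 := abs_of_pos (by norm_num)
  unfold XX at h3
  rw [h5] at h3 h4
  simp only [abs_zero, zero_mul, add_zero, zero_div] at h3
  linarith

end Pool.Agent.H.MP_e3c312_co
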